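import Pool.Agent.T44.GF.Stm3
import Pool.Agent.H16EF.Codim

/-!
# Subalgebras of codimension at most `n - 2` of the symplectic Lie algebra, part 1: basic facts

Stub `CODIM2` of the project GF (helper44); paper proof by helper44, formalised by helper91.
-/

set_option autoImplicit false

open Matrix Module

namespace Pool.Agent.H91GF

open Pool.Agent.Y118.HP Pool.Agent.Y123.ST Pool.Agent.H16EF

variable {n : ℕ}

/-- `h` acts as the derivation induced by `A` on the products, and `A` is skew -/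
def Acts (h : Matrix (Fin n) (Fin n) ℂ) (A : (Fin n → ℂ) →ₗ[ℂ] (Fin n → ℂ)) : Prop :=
  (∀ x y, h * E x y - E x y * h = E (A x) y + E x (A y)) ∧ ∀ x y, om (A x) y + om x (A y) = 0

/-- the action of `E v w` -/
noncomputable def AA (v w : Fin n → ℂ) : (Fin n → ℂ) →ₗ[ℂ] (Fin n → ℂ) :=
  (B n w).smulRight v + (B n v).smulRight w

theorem AA_apply (v w x : Fin n → ℂ) : AA v w x = om w x • v + om v x • w := by
  simp [AA, B_apply]

theorem E_add_left (a a' b : Fin n → ℂ) : E (a + a') b = E a b + E a' b := by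
  rw [E_comm, E_add, E_comm b a, E_comm b a']

theorem E_smul_left (c : ℂ) (a b : Fin n → ℂ) : E (c • a) b = c • E a b := by
  rw [E_comm, E_smul, E_comm b a]

theorem om_zero_left (x : Fin n → ℂ) : om 0 x = 0 := by
  have := om_smul_left 0 0 x
  simpa using this

theorem om_zero_right (x : Fin n → ℂ) : om x 0 = 0 := by
  have := om_smul_right 0 x 0
  simpa using this

theorem acts_E (v w : Fin n → ℂ) : Acts (E v w) (AA v w) := by
  refine ⟨fun x y => ?_, fun x y => ?_⟩
  · rw [bracket, AA_apply, AA_apply, E_add_left, E_add, E_smul_left, E_smul_left, E_smul, E_smul,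
      E_comm x v, E_comm x w]
    abel
  · rw [AA_apply, AA_apply, om_add_left, om_add, om_smul_left, om_smul_left, om_smul_right,
      om_smul_right, om_skew v x, om_skew w x]
    ring

theorem acts_add {h h' : Matrix (Fin n) (Fin n) ℂ} {A A' : (Fin n → ℂ) →ₗ[ℂ] (Fin n → ℂ)}
    (h1 : Acts h A) (h2 : Acts h' A') : Acts (h + h') (A + A') := by
  refine ⟨fun x y => ?_, fun x y => ?_⟩
  · rw [LinearMap.add_apply, LinearMap.add_apply, E_add_left, E_add, add_mul, mul_add]
    have e1 := h1.1 x y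
    have e2 := h2.1 x y
    calc h * E x y + h' * E x y - (E x y * h + E x y * h')
        = (h * E x y - E x y * h) + (h' * E x y - E x y * h') := by abel
      _ = _ := by rw [e1, e2]; abel
  · rw [LinearMap.add_apply, LinearMap.add_apply, om_add_left, om_add]
    linear_combination h1.2 x y + h2.2 x y

/-- squares in `H` -/
theorem acts_E_mem {H : Submodule ℂ (Matrix (Fin n) (Fin n) ℂ)} (hH : ∀ X ∈ H, ∀ Y ∈ H, X * Y - Y * X ∈ H)
    {h : Matrix (Fin n) (Fin n) ℂ} {A : (Fin n → ℂ) →ₗ[ℂ] (Fin n → ℂ)} (hA : Acts h A) (hh : h ∈ H)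
    {x y : Fin n → ℂ} (hxy : E x y ∈ H) : E (A x) y + E x (A y) ∈ H := by
  rw [← hA.1]
  exact hH _ hh _ hxy

theorem EE_mem_iff {H : Submodule ℂ (Matrix (Fin n) (Fin n) ℂ)} (x : Fin n → ℂ) : E x x ∈ H ↔ EE x ∈ H := by
  rw [E_self]
  exact Submodule.smul_mem_iff _ (by norm_num)

/-- for `x ∈ X` and `h ∈ H`: `x · (h x) ∈ H` -/
theorem E_A_mem {H : Submodule ℂ (Matrix (Fin n) (Fin n) ℂ)} (hH : ∀ X ∈ H, ∀ Y ∈ H, X * Y - Y * X ∈ H)
    {h : Matrix (Fin n) (Fin n) ℂ} {A : (Fin n → ℂ) →ₗ[ℂ] (Fin n → ℂ)} (hA : Acts h A) (hh : h ∈ H)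
    {x : Fin n → ℂ} (hx : EE x ∈ H) : E x (A x) ∈ H := by
  have h1 := acts_E_mem hH hA hh ((EE_mem_iff x).2 hx)
  rw [E_comm (A x) x, ← two_smul ℂ] at h1
  exact (Submodule.smul_mem_iff _ (by norm_num)).1 h1

/-- the span of the classes of the squares -/
noncomputable def SS (H : Submodule ℂ (Matrix (Fin n) (Fin n) ℂ)) : Submodule ℂ (Matrix (Fin n) (Fin n) ℂ ⧸ H) :=
  Submodule.span ℂ (Set.range fun u : Fin n → ℂ => H.mkQ (EE u))

theorem SS_dim {H : Submodule ℂ (Matrix (Fin n) (Fin n) ℂ)} (hn4 : 4 ≤ n)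
    (hdim : ∀ v : Fin (n - 1) → (Fin n → ℂ), ¬ LinearIndependent ℂ (fun i => H.mkQ (EE (v i)))) :
    finrank ℂ (SS H) + 2 ≤ n := by
  by_contra hcon
  have hcon' : n - 1 ≤ finrank ℂ (SS H) := by omega
  unfold SS at hcon'
  obtain ⟨f, hf1, -, hf3⟩ :=
    Submodule.exists_fun_fin_finrank_span_eq ℂ (Set.range fun u : Fin n → ℂ => H.mkQ (EE u))
  choose u hu using hf1
  refine hdim (fun i => u (Fin.castLE hcon' i)) ?_
  have h5 : (fun i : Fin (n - 1) => H.mkQ (EE (u (Fin.castLE hcon' i)))) = f ∘ Fin.castLE hcon' := by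
    funext i
    exact hu _
  rw [h5]
  exact hf3.comp _ (Fin.castLE_injective hcon')

theorem phi_mem_SS (H : Submodule ℂ (Matrix (Fin n) (Fin n) ℂ)) (v w : Fin n → ℂ) : phi H v w ∈ SS H := by
  rw [phi_apply]
  have h5 : E v w = EE (v + w) - EE v - EE w := by rw [EE_add]; abel
  rw [h5, map_sub, map_sub]
  have h6 : ∀ u, H.mkQ (EE u) ∈ SS H := fun u => Submodule.subset_span ⟨u, rfl⟩
  exact Submodule.sub_mem _ (Submodule.sub_mem _ (h6 _) (h6 _)) (h6 _)

/-- every functional is given by the form -/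
theorem exists_om_eq (hn : Even n) (f : (Fin n → ℂ) →ₗ[ℂ] ℂ) : ∃ v, ∀ x, om v x = f x := by
  have h1 : Function.Injective (B n) := by
    rw [← LinearMap.ker_eq_bot, LinearMap.ker_eq_bot']
    intro u hu
    refine om_nondeg hn fun x => ?_
    rw [← B_apply, hu]
    rfl
  have h2 : Function.Surjective (B n) :=
    (LinearMap.injective_iff_surjective_of_finrank_eq_finrank (by
      rw [Module.finrank_linearMap, finrank_self, mul_one])).1 h1
  obtain ⟨v, hv⟩ := h2 f
  exact ⟨v, fun x => by rw [← B_apply, hv]⟩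

/-- dual vectors of an independent family -/
theorem exists_om_family (hn : Even n) {ι : Type} {x : ι → (Fin n → ℂ)} (hx : LinearIndependent ℂ x)
    (t : ι → ℂ) : ∃ v, ∀ i, om v (x i) = t i := by
  obtain ⟨g, hg⟩ := LinearMap.exists_extend ((Basis.span hx).constr ℂ t)
  obtain ⟨v, hv⟩ := exists_om_eq hn g
  refine ⟨v, fun i => ?_⟩
  rw [hv]
  have h1 : x i = (Submodule.span ℂ (Set.range x)).subtype (Basis.span hx i) := by
    rw [Submodule.subtype_apply, Basis.span_apply]
  rw [h1, ← LinearMap.comp_apply, hg, Basis.constr_basis]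

theorem exists_om_one (hn : Even n) {x : Fin n → ℂ} (hx : x ≠ 0) : ∃ v, om v x = 1 := by
  obtain ⟨v, hv⟩ := exists_om_family hn (x := fun _ : Unit => x) (LinearIndependent.of_subsingleton () hx) (fun _ => 1)
  exact ⟨v, hv ()⟩

/-- the vectors `w` -/
theorem exists_w {H : Submodule ℂ (Matrix (Fin n) (Fin n) ℂ)} (hS : finrank ℂ (SS H) + 2 ≤ n)
    (v : Fin n → ℂ) : ∃ w, w ≠ 0 ∧ om v w = 0 ∧ E v w ∈ H := by
  have hr : LinearMap.range (phi H v) ≤ SS H := by
    rintro _ ⟨w, rfl⟩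
    exact phi_mem_SS H v w
  have hr2 := Submodule.finrank_mono hr
  have hrn := LinearMap.finrank_range_add_finrank_ker (phi H v)
  rw [finrank_fin_fun] at hrn
  have h5 : LinearMap.ker ((B n v).domRestrict (LinearMap.ker (phi H v))) ≠ ⊥ := by
    apply LinearMap.ker_ne_bot_of_finrank_lt
    rw [finrank_self]
    omega
  obtain ⟨y, hy, hy0⟩ := (Submodule.ne_bot_iff _).1 h5
  refine ⟨y, fun h => hy0 (Subtype.ext h), hy, (mem_ker H v y).1 y.2⟩

theorem EE_smul' (c : ℂ) (v : Fin n → ℂ) : EE (c • v) = (c * c) • EE v := by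
  rw [EE_eq, EE_eq, P_smul_left, P_smul_right, smul_smul]

/-- Step 1: there is a nonzero `x` with `EE x ∈ H` -/
theorem step1 (hn : Even n) (hn4 : 4 ≤ n) {H : Submodule ℂ (Matrix (Fin n) (Fin n) ℂ)}
    (hH : ∀ X ∈ H, ∀ Y ∈ H, X * Y - Y * X ∈ H)
    (hdim : ∀ v : Fin (n - 1) → (Fin n → ℂ), ¬ LinearIndependent ℂ (fun i => H.mkQ (EE (v i)))) :
    ∃ x : Fin n → ℂ, x ≠ 0 ∧ EE x ∈ H := by
  by_contra hcon
  push Not at hcon
  have hS := SS_dim hn4 hdim
  have hli : LinearIndependent ℂ (fun i : Fin (n - 1) => (Pi.basisFun ℂ (Fin n)) (Fin.castLE (by omega) i)) :=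
    (Pi.basisFun ℂ (Fin n)).linearIndependent.comp _ (Fin.castLE_injective _)
  obtain ⟨e, he⟩ : ∃ e : Fin (n - 1) → (Fin n → ℂ), e = fun i : Fin (n - 1) =>
    (Pi.basisFun ℂ (Fin n)) (Fin.castLE (by omega) i) := ⟨_, rfl⟩
  rw [← he] at hli
  have h1 := hdim e
  rw [Fintype.not_linearIndependent_iff] at h1
  obtain ⟨g, hg, i0, hi0⟩ := h1
  have hz : ∑ i, g i • EE (e i) ∈ H := by
    rw [← Submodule.Quotient.mk_eq_zero, ← Submodule.mkQ_apply, map_sum]
    simpa using hg
  obtain ⟨v, hv⟩ := exists_om_family hn hli (fun i => if i = i0 then 1 else 0)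
  have hv0 : v ≠ 0 := by
    rintro rfl
    have := hv i0
    rw [om_zero_left, if_pos rfl] at this
    exact zero_ne_one this
  obtain ⟨w, hw0, hvw, hwH⟩ := exists_w hS v
  -- the double bracket
  have hA := acts_E v w
  have hAA : ∀ x, AA v w (AA v w x) = 0 := by
    intro x
    rw [AA_apply, AA_apply, om_add, om_add, om_smul_right, om_smul_right, om_smul_right, om_smul_right,
      om_self, om_self, hvw, om_skew v w, hvw]
    simp
  have hb1 : ∀ x : Fin n → ℂ, E v w * EE x - EE x * E v w = E x (AA v w x) := by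
    intro x
    have h3 := hA.1 x x
    rw [E_self, E_comm (AA v w x) x, mul_smul_comm, smul_mul_assoc, ← smul_sub, ← two_smul ℂ] at h3
    exact smul_right_injective _ (two_ne_zero (α := ℂ)) h3
  have hb2 : ∀ x : Fin n → ℂ, E v w * E x (AA v w x) - E x (AA v w x) * E v w = (2 : ℂ) • EE (AA v w x) := by
    intro x
    rw [hA.1, hAA, E_self]
    have : E x 0 = 0 := by
      have := E_smul 0 x 0
      simpa using this
    rw [this, add_zero]
  have h4 : E v w * (∑ i, g i • EE (e i)) - (∑ i, g i • EE (e i)) * E v w = ∑ i, g i • E (e i) (AA v w (e i)) := by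
    rw [Finset.mul_sum, Finset.sum_mul, ← Finset.sum_sub_distrib]
    refine Finset.sum_congr rfl fun i _ => ?_
    rw [mul_smul_comm, smul_mul_assoc, ← smul_sub, hb1]
  have h5 : E v w * (∑ i, g i • E (e i) (AA v w (e i))) - (∑ i, g i • E (e i) (AA v w (e i))) * E v w =
      ∑ i, g i • ((2 : ℂ) • EE (AA v w (e i))) := by
    rw [Finset.mul_sum, Finset.sum_mul, ← Finset.sum_sub_distrib]
    refine Finset.sum_congr rfl fun i _ => ?_
    rw [mul_smul_comm, smul_mul_assoc, ← smul_sub, hb2]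
  have h6 : ∑ i, g i • ((2 : ℂ) • EE (AA v w (e i))) ∈ H := by
    rw [← h5]
    refine hH _ hwH _ ?_
    rw [← h4]
    exact hH _ hwH _ hz
  -- evaluate
  have h7 : ∑ i, g i • ((2 : ℂ) • EE (AA v w (e i))) =
      (2 * ∑ i, g i * (om w (e i) * om w (e i))) • EE v + (2 * ∑ i, g i * (om v (e i) * om v (e i))) • EE w +
      (2 * ∑ i, g i * (om w (e i) * om v (e i))) • E v w := by
    rw [Finset.mul_sum, Finset.mul_sum, Finset.mul_sum, Finset.sum_smul, Finset.sum_smul, Finset.sum_smul,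
      ← Finset.sum_add_distrib, ← Finset.sum_add_distrib]
    refine Finset.sum_congr rfl fun i _ => ?_
    rw [AA_apply, EE_add, EE_smul', EE_smul', E_smul, E_smul_left, smul_add, smul_add, smul_add, smul_add,
      smul_smul, smul_smul, smul_smul, smul_smul, smul_smul, smul_smul, smul_smul]
    congr 1
    · congr 1 <;> · congr 1; ring
    · congr 1; ring
  have h8 : ∑ i, g i * (om v (e i) * om v (e i)) = g i0 := by
    rw [Finset.sum_eq_single i0]
    · rw [hv, if_pos rfl]; ring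
    · intro j _ hj
      rw [hv, if_neg hj]; ring
    · intro h; exact absurd (Finset.mem_univ _) h
  rw [h7, h8] at h6
  have h9 := H.sub_mem h6 (H.smul_mem (2 * ∑ i, g i * (om w (e i) * om v (e i))) hwH)
  rw [add_sub_cancel_right] at h9
  obtain ⟨α, hα⟩ : ∃ α, α = 2 * ∑ i, g i * (om w (e i) * om w (e i)) := ⟨_, rfl⟩
  rw [← hα] at h9
  obtain ⟨a, ha⟩ := IsAlgClosed.exists_pow_nat_eq α (n := 2) (by norm_num)
  obtain ⟨b, hb⟩ := IsAlgClosed.exists_pow_nat_eq (2 * g i0) (n := 2) (by norm_num)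
  have hb0 : b ≠ 0 := by
    rintro rfl
    apply hi0
    have : (0 : ℂ) = 2 * g i0 := by simpa using hb
    simpa using this.symm
  have h10 : EE (a • v + b • w) ∈ H := by
    rw [EE_add, EE_smul', EE_smul', E_smul, E_smul_left, smul_smul]
    refine H.add_mem ?_ (H.smul_mem _ hwH)
    rw [← sq, ← sq, ha, hb]
    exact h9
  refine hcon _ ?_ h10
  intro h11
  have h12 : w = (-(a / b)) • v := by
    have : b • w = -(a • v) := by
      rw [eq_neg_iff_add_eq_zero, add_comm]; exact h11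
    calc w = b⁻¹ • (b • w) := by rw [smul_smul, inv_mul_cancel₀ hb0, one_smul]
      _ = _ := by rw [this, smul_neg, smul_smul, neg_smul]; congr 2; field_simp
  have h13 : -(a / b) ≠ 0 := by
    intro h
    rw [h, zero_smul] at h12
    exact hw0 h12
  rw [h12, E_smul] at hwH
  exact hcon v hv0 ((EE_mem_iff v).1 ((Submodule.smul_mem_iff _ h13).1 hwH))

end Pool.Agent.H91GF
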