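import Pool.Agent.H91GF.Bas

/-!
# Subalgebras of codimension at most `n - 2` of the symplectic Lie algebra, part 2: isotropic subspaces

Stub `CODIM2` of the project GF (helper44); paper proof by helper44, formalised by helper91.
-/

set_option autoImplicit false

open Matrix Module

namespace Pool.Agent.H91GF

open Pool.Agent.Y118.HP Pool.Agent.Y123.ST Pool.Agent.H16EF

variable {n : ℕ}

/-- nilpotent elements preserve `R` -/
def Stab (H : Submodule ℂ (Matrix (Fin n) (Fin n) ℂ)) (R : Submodule ℂ (Fin n → ℂ)) : Prop :=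
  ∀ h ∈ H, ∀ A, Acts h A → (∀ x, A (A (A x)) = 0) → ∀ x ∈ R, A x ∈ R

/-- Step 2, dimension one -/
theorem step2_one (hn : Even n) {H : Submodule ℂ (Matrix (Fin n) (Fin n) ℂ)}
    (hS : finrank ℂ (SS H) + 2 ≤ n) {R : Submodule ℂ (Fin n → ℂ)} (hst : Stab H R)
    {x : Fin n → ℂ} (hx0 : x ≠ 0) (hx : x ∈ R) (hR : ∀ y ∈ R, ∃ c : ℂ, y = c • x) : False := by
  obtain ⟨v, hv⟩ := exists_om_one hn hx0
  obtain ⟨w, hw0, hvw, hwH⟩ := exists_w hS v
  have hnil : ∀ y, AA v w (AA v w (AA v w y)) = 0 := by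
    intro y
    have : ∀ x, AA v w (AA v w x) = 0 := by
      intro x
      rw [AA_apply, AA_apply, om_add, om_add, om_smul_right, om_smul_right, om_smul_right, om_smul_right,
        om_self, om_self, hvw, om_skew v w, hvw]
      simp
    rw [this]
  have h1 := hst _ hwH _ (acts_E v w) hnil x hx
  obtain ⟨c, hc⟩ := hR _ h1
  rw [AA_apply, hv, one_smul] at hc
  -- `w = c x - om w x v`
  have hw : w = c • x - om w x • v := by rw [← hc]; abel
  have h2 : c = 0 := by
    have h3 := hvw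
    rw [hw, sub_eq_add_neg, ← neg_smul, om_add, om_smul_right, om_smul_right, om_self, hv] at h3
    simpa using h3
  have h4 : w = (-om w x) • v := by
    rw [h2, zero_smul, zero_sub] at hw
    rw [neg_smul]
    exact hw
  have h5 : -om w x ≠ 0 := by
    intro h
    rw [h, zero_smul] at h4
    exact hw0 h4
  have h6 : E v v ∈ H := by
    rw [h4, E_smul] at hwH
    exact (Submodule.smul_mem_iff _ h5).1 hwH
  have hnil2 : ∀ y, AA v v (AA v v (AA v v y)) = 0 := by
    intro y
    have : ∀ x, AA v v (AA v v x) = 0 := by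
      intro x
      rw [AA_apply, AA_apply, om_add, om_smul_right, om_self]
      simp
    rw [this]
  have h7 := hst _ h6 _ (acts_E v v) hnil2 x hx
  obtain ⟨d, hd⟩ := hR _ h7
  rw [AA_apply, hv, one_smul] at hd
  have h8 := congrArg (fun z => om v z) hd
  simp only [om_add, om_smul_right, om_self, hv] at h8
  have h9 : d = 0 := by simpa using h8.symm
  rw [h9, zero_smul] at hd
  have h10 : v = 0 := by
    have : (2 : ℂ) • v = 0 := by rw [two_smul]; exact hd
    exact (smul_eq_zero.1 this).resolve_left (by norm_num)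
  rw [h10, om_zero_left] at hv
  exact zero_ne_one hv

/-- the action of `E v w + E v' w'` -/
noncomputable def A2 (v w v' w' : Fin n → ℂ) : (Fin n → ℂ) →ₗ[ℂ] (Fin n → ℂ) := AA v w + AA v' w'

theorem A2_apply (v w v' w' x : Fin n → ℂ) :
    A2 v w v' w' x = om w x • v + om v x • w + (om w' x • v' + om v' x • w') := by
  rw [A2, LinearMap.add_apply, AA_apply, AA_apply]

theorem acts_A2 (v w v' w' : Fin n → ℂ) : Acts (E v w + E v' w') (A2 v w v' w') :=
  acts_add (acts_E v w) (acts_E v' w')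

theorem A2_nil {v w v' w' : Fin n → ℂ} (h0 : om v v' = 0) (h1 : om v w = 0) (h2 : om v' w = 0)
    (h3 : om v w' = 0) (h4 : om v' w' = 0) (x : Fin n → ℂ) :
    A2 v w v' w' (A2 v w v' w' (A2 v w v' w' x)) = 0 := by
  have h0' : om v' v = 0 := by rw [om_skew v v', h0, neg_zero]
  have h1' : om w v = 0 := by rw [om_skew v w, h1, neg_zero]
  have h2' : om w v' = 0 := by rw [om_skew v' w, h2, neg_zero]
  have h3' : om w' v = 0 := by rw [om_skew v w', h3, neg_zero]
  have h4' : om w' v' = 0 := by rw [om_skew v' w', h4, neg_zero]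
  have e1 : A2 v w v' w' v = 0 := by
    rw [A2_apply, h1', om_self, h3', h0']; simp
  have e2 : A2 v w v' w' v' = 0 := by
    rw [A2_apply, h2', om_self, h4', h0]; simp
  have e3 : A2 v w v' w' w = om w' w • v' := by
    rw [A2_apply, h1, h2, om_self]; simp
  have e4 : A2 v w v' w' w' = om w w' • v := by
    rw [A2_apply, h3, h4, om_self]; simp
  have e5 : ∀ y, A2 v w v' w' (A2 v w v' w' y) = om v y • (om w' w • v') + om v' y • (om w w' • v) := by
    intro y
    conv_lhs => rw [A2_apply v w v' w' y]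
    rw [map_add, map_add, map_add, map_smul, map_smul, map_smul, map_smul, e1, e2, e3, e4]
    simp
  rw [e5]
  have e6 : om v (A2 v w v' w' x) = 0 := by
    rw [A2_apply, om_add, om_add, om_add, om_smul_right, om_smul_right, om_smul_right, om_smul_right,
      om_self, h1, h0, h3]
    ring
  have e7 : om v' (A2 v w v' w' x) = 0 := by
    rw [A2_apply, om_add, om_add, om_add, om_smul_right, om_smul_right, om_smul_right, om_smul_right,
      om_self, h2, h0', h4]
    ring
  rw [e6, e7]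
  simp

/-- Step 2, dimension at least two -/
theorem step2_two (hn : Even n) {H : Submodule ℂ (Matrix (Fin n) (Fin n) ℂ)}
    (hS : finrank ℂ (SS H) + 2 ≤ n) {R : Submodule ℂ (Fin n → ℂ)} (hst : Stab H R)
    (hiso : ∀ x ∈ R, ∀ y ∈ R, om x y = 0) (h2R : 1 < finrank ℂ R) : False := by
  -- two independent vectors of `R`
  obtain ⟨x1, x2, hx1, hx2, hli⟩ : ∃ x1 x2 : Fin n → ℂ, x1 ∈ R ∧ x2 ∈ R ∧ LinearIndependent ℂ ![x1, x2] := by
    haveI : Nontrivial R := Module.nontrivial_of_finrank_pos (R := ℂ) (by omega)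
    obtain ⟨y1, hy1⟩ := exists_ne (0 : R)
    obtain ⟨y2, hy2⟩ := exists_linearIndependent_pair_of_one_lt_finrank h2R hy1
    refine ⟨y1, y2, y1.2, y2.2, ?_⟩
    have h1 := hy2.map' R.subtype (Submodule.ker_subtype R)
    have h2 : (R.subtype : R → (Fin n → ℂ)) ∘ ![y1, y2] = ![(y1 : Fin n → ℂ), (y2 : Fin n → ℂ)] := by
      funext i
      fin_cases i <;> rfl
    rw [h2] at h1
    exact h1
  obtain ⟨v, hv⟩ := exists_om_family hn hli ![1, 0]
  have hv1 : om v x1 = 1 := hv 0
  have hv2 : om v x2 = 0 := hv 1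
  obtain ⟨u, hu⟩ := exists_om_family hn hli ![0, 1]
  have hu1 : om u x1 = 0 := hu 0
  have hu2 : om u x2 = 1 := hu 1
  obtain ⟨v', hv'⟩ : ∃ v', v' = u - om v u • x1 := ⟨_, rfl⟩
  have hvv' : om v v' = 0 := by
    rw [hv', sub_eq_add_neg, ← neg_smul, om_add, om_smul_right, hv1]; ring
  have hv'1 : om v' x1 = 0 := by
    rw [hv', om_sub_left, om_smul_left, om_self, hu1]; ring
  have hv'2 : om v' x2 = 1 := by
    rw [hv', om_sub_left, om_smul_left, hiso x1 hx1 x2 hx2, hu2]; ring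
  -- the space of pairs
  obtain ⟨Ψ, hΨ⟩ : ∃ Ψ : (Fin n → ℂ) × (Fin n → ℂ) →ₗ[ℂ] (Matrix (Fin n) (Fin n) ℂ ⧸ H),
      ∀ p, Ψ p = H.mkQ (E v p.1 + E v' p.2) := by
    refine ⟨(phi H v).coprod (phi H v'), fun p => ?_⟩
    rw [LinearMap.coprod_apply, phi_apply, phi_apply, map_add]
  obtain ⟨Φ, hΦ⟩ : ∃ Φ : (Fin n → ℂ) × (Fin n → ℂ) →ₗ[ℂ] (ℂ × ℂ) × (ℂ × ℂ),
      ∀ p, Φ p = ((om v p.1, om v' p.1), (om v p.2, om v' p.2)) := by
    refine ⟨(((B n v).prod (B n v')).comp (LinearMap.fst ℂ _ _)).prod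
      (((B n v).prod (B n v')).comp (LinearMap.snd ℂ _ _)), fun p => ?_⟩
    simp [B_apply]
  have hK1 : 2 * n ≤ finrank ℂ (LinearMap.ker Ψ) + finrank ℂ (SS H) := by
    have hr : LinearMap.range Ψ ≤ SS H := by
      rintro _ ⟨p, rfl⟩
      rw [hΨ, map_add]
      exact Submodule.add_mem _ (phi_mem_SS H v p.1) (phi_mem_SS H v' p.2)
    have hr2 := Submodule.finrank_mono hr
    have hrn := LinearMap.finrank_range_add_finrank_ker Ψ
    rw [Module.finrank_prod, finrank_fin_fun] at hrn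
    omega
  have hK2 : finrank ℂ (LinearMap.ker Ψ) ≤ finrank ℂ (LinearMap.ker (Φ.domRestrict (LinearMap.ker Ψ))) + 4 := by
    have hrn := LinearMap.finrank_range_add_finrank_ker (Φ.domRestrict (LinearMap.ker Ψ))
    have hr2 := Submodule.finrank_le (LinearMap.range (Φ.domRestrict (LinearMap.ker Ψ)))
    simp only [Module.finrank_prod, finrank_self] at hr2
    omega
  -- the upper bound
  obtain ⟨G, hG⟩ : ∃ G : R →ₗ[ℂ] ℂ × ℂ, ∀ y : R, G y = (om v y, om v' y) := by
    refine ⟨((B n v).prod (B n v')).domRestrict R, fun y => ?_⟩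
    simp [B_apply]
  have hGs : LinearMap.range G = ⊤ := by
    rw [LinearMap.range_eq_top]
    rintro ⟨a, b⟩
    refine ⟨a • ⟨x1, hx1⟩ + b • ⟨x2, hx2⟩, ?_⟩
    rw [map_add, map_smul, map_smul, hG, hG]
    simp [hv1, hv2, hv'1, hv'2]
  have hGk := LinearMap.finrank_range_add_finrank_ker G
  rw [hGs, finrank_top, Module.finrank_prod, finrank_self] at hGk
  obtain ⟨R', hR'⟩ : ∃ R' : Submodule ℂ (Fin n → ℂ), R' = (LinearMap.ker G).map R.subtype := ⟨_, rfl⟩
  have hR'mem : ∀ y, y ∈ R → om v y = 0 → om v' y = 0 → y ∈ R' := by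
    intro y hy h1 h2
    rw [hR', Submodule.mem_map]
    refine ⟨⟨y, hy⟩, ?_, rfl⟩
    rw [LinearMap.mem_ker, hG]
    simp [h1, h2]
  have hR'dim : finrank ℂ R' + 2 = finrank ℂ R := by
    rw [hR', Submodule.finrank_map_subtype_eq]
    omega
  obtain ⟨L, hL⟩ : ∃ L : ℂ × (R' × R') →ₗ[ℂ] (Fin n → ℂ) × (Fin n → ℂ),
      ∀ p, L p = (p.1 • v' + (p.2.1 : Fin n → ℂ), -(p.1 • v) + (p.2.2 : Fin n → ℂ)) := by
    refine ⟨((LinearMap.toSpanSingleton ℂ _ v').coprod (R'.subtype ∘ₗ LinearMap.fst ℂ _ _)).prod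
      ((-(LinearMap.toSpanSingleton ℂ _ v)).coprod (R'.subtype ∘ₗ LinearMap.snd ℂ _ _)), fun p => ?_⟩
    simp [LinearMap.coprod_apply]
  have hup : (LinearMap.ker (Φ.domRestrict (LinearMap.ker Ψ))).map (LinearMap.ker Ψ).subtype ≤ LinearMap.range L := by
    rintro _ ⟨⟨⟨w, w'⟩, hp⟩, hq, rfl⟩
    rw [LinearMap.mem_ker, hΨ] at hp
    rw [SetLike.mem_coe, LinearMap.mem_ker, LinearMap.domRestrict_apply, hΦ] at hq
    simp only [Prod.mk_eq_zero] at hq
    simp only at hp
    obtain ⟨⟨q1, q2⟩, q3, q4⟩ := hq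
    have hpH : E v w + E v' w' ∈ H := by
      rw [← Submodule.Quotient.mk_eq_zero, ← Submodule.mkQ_apply]
      exact hp
    have hstab : ∀ x ∈ R, om w x • v + om v x • w + (om w' x • v' + om v' x • w') ∈ R := by
      intro x hx
      rw [← A2_apply]
      exact hst _ hpH _ (acts_A2 v w v' w') (A2_nil hvv' q1 q2 q3 q4) x hx
    have s1 := hstab x1 hx1
    have s2 := hstab x2 hx2
    rw [hv1, hv'1, one_smul, zero_smul, add_zero] at s1
    rw [hv2, hv'2, one_smul, zero_smul, add_zero] at s2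
    -- `y`, `y'`
    obtain ⟨y, hy⟩ : ∃ y, y = om w x1 • v + w + om w' x1 • v' := ⟨_, rfl⟩
    obtain ⟨y', hy'⟩ : ∃ y', y' = om w x2 • v + (om w' x2 • v' + w') := ⟨_, rfl⟩
    rw [← hy] at s1
    rw [← hy'] at s2
    have t11 := hiso _ s1 _ hx1
    have t12 := hiso _ s1 _ hx2
    have t21 := hiso _ s2 _ hx1
    have t22 := hiso _ s2 _ hx2
    rw [hy] at t11 t12
    rw [hy'] at t21 t22
    rw [om_add_left, om_add_left, om_smul_left, om_smul_left, hv1, hv'1] at t11
    rw [om_add_left, om_add_left, om_smul_left, om_smul_left, hv2, hv'2] at t12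
    rw [om_add_left, om_add_left, om_smul_left, om_smul_left, hv1, hv'1] at t21
    rw [om_add_left, om_add_left, om_smul_left, om_smul_left, hv2, hv'2] at t22
    have r1 : om w x1 = 0 := by linear_combination (1 / 2) * t11
    have r2 : om w' x2 = 0 := by linear_combination (1 / 2) * t22
    have r3 : om w x2 = -om w' x1 := by linear_combination t12
    rw [r1, zero_smul, zero_add] at hy
    rw [r2, zero_smul, zero_add, r3] at hy'
    have hw : w = (-om w' x1) • v' + y := by rw [hy, neg_smul]; abel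
    have hw' : w' = -((-om w' x1) • v) + y' := by rw [hy']; abel
    have m1 : om v y = 0 := by
      rw [hy, om_add, om_smul_right, q1, hvv']; ring
    have m2 : om v' y = 0 := by
      rw [hy, om_add, om_smul_right, q2, om_self]; ring
    have m3 : om v y' = 0 := by
      rw [hy', om_add, om_smul_right, q3, om_self]; ring
    have m4 : om v' y' = 0 := by
      rw [hy', om_add, om_smul_right, q4, om_skew v v', hvv']; ring
    refine ⟨(-om w' x1, ⟨y, hR'mem y s1 m1 m2⟩, ⟨y', hR'mem y' s2 m3 m4⟩), ?_⟩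
    rw [hL]
    simp only [Submodule.subtype_apply]
    rw [← hw, ← hw']
  have hup2 := Submodule.finrank_mono hup
  rw [Submodule.finrank_map_subtype_eq] at hup2
  have hup3 := LinearMap.finrank_range_le L
  rw [Module.finrank_prod, Module.finrank_prod, finrank_self] at hup3
  have hisoR := isotropic_le hn R hiso
  omega

/-- Step 2 -/
theorem step2 (hn : Even n) {H : Submodule ℂ (Matrix (Fin n) (Fin n) ℂ)}
    (hS : finrank ℂ (SS H) + 2 ≤ n) {R : Submodule ℂ (Fin n → ℂ)} (hst : Stab H R)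
    (hiso : ∀ x ∈ R, ∀ y ∈ R, om x y = 0) (hR0 : R ≠ ⊥) : False := by
  by_cases h2R : 1 < finrank ℂ R
  · exact step2_two hn hS hst hiso h2R
  · push Not at h2R
    obtain ⟨x, hx, hx0⟩ := (Submodule.ne_bot_iff _).1 hR0
    obtain ⟨z, hz⟩ := finrank_le_one_iff.1 h2R
    refine step2_one hn hS hst hx0 hx fun y hy => ?_
    obtain ⟨a, ha⟩ := hz ⟨x, hx⟩
    obtain ⟨b, hb⟩ := hz ⟨y, hy⟩
    have ha' : a • (z : Fin n → ℂ) = x := congrArg Subtype.val ha
    have hb' : b • (z : Fin n → ℂ) = y := congrArg Subtype.val hb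
    have ha0 : a ≠ 0 := by
      rintro rfl
      rw [zero_smul] at ha'
      exact hx0 ha'.symm
    refine ⟨b / a, ?_⟩
    rw [← ha', ← hb', smul_smul, div_mul_cancel₀ _ ha0]

end Pool.Agent.H91GF
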