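import Pool.Agent.H91GF.Count

/-!
# Subalgebras of codimension at most `n - 2` of the symplectic Lie algebra are everything

Stub `CODIM2` of the project GF (helper44); paper proof by helper44, formalised by helper91.
-/

set_option autoImplicit false

open Matrix Module

namespace Pool.Agent.H91GF

open Pool.Agent.Y118.HP Pool.Agent.Y123.ST Pool.Agent.H16EF

variable {n : ℕ}

section

variable {H : Submodule ℂ (Matrix (Fin n) (Fin n) ℂ)}

/-- squares of sums -/
theorem EE_add_mem {a b : Fin n → ℂ} (ha : EE a ∈ H) (hb : EE b ∈ H) (hab : E a b ∈ H) : EE (a + b) ∈ H := by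
  rw [EE_add]
  exact H.add_mem (H.add_mem ha hb) hab

theorem EE_sub_mem {a b : Fin n → ℂ} (ha : EE a ∈ H) (hb : EE b ∈ H) (hab : E a b ∈ H) : EE (a - b) ∈ H := by
  have h1 : a - b = a + (-1 : ℂ) • b := by rw [neg_smul, one_smul, sub_eq_add_neg]
  rw [h1]
  refine EE_add_mem ha ?_ ?_
  · rw [EE_smul']
    exact H.smul_mem _ hb
  · rw [E_smul]
    exact H.smul_mem _ hab

/-- two squares with a nonzero pairing -/
theorem E_mem_of_om (hH : ∀ X ∈ H, ∀ Y ∈ H, X * Y - Y * X ∈ H) {v w : Fin n → ℂ} (hv : EE v ∈ H)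
    (hw : EE w ∈ H) (hvw : om v w ≠ 0) : E v w ∈ H := by
  have h1 := acts_E_mem hH (acts_E v v) ((EE_mem_iff v).2 hv) ((EE_mem_iff w).2 hw)
  rw [AA_apply, E_add_left, E_add, E_smul_left, E_smul, E_comm w v] at h1
  have h2 : (4 * om v w) • E v w ∈ H := by
    convert h1 using 1
    rw [← add_smul, ← add_smul]
    congr 1
    ring
  exact (Submodule.smul_mem_iff _ (mul_ne_zero (by norm_num) hvw)).1 h2

/-- two squares joined by a path -/
theorem E_mem_of_path (hH : ∀ X ∈ H, ∀ Y ∈ H, X * Y - Y * X ∈ H) {v u w : Fin n → ℂ} (hv : EE v ∈ H)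
    (hu : EE u ∈ H) (hw : EE w ∈ H) (hvu : om v u ≠ 0) (huw : om u w ≠ 0) : E v w ∈ H := by
  by_cases hvw : om v w = 0
  · have h1 := E_mem_of_om hH hv hu hvu
    have h2 := EE_add_mem hv hu h1
    have h3 : om (v + u) w ≠ 0 := by
      rw [om_add_left, hvw, zero_add]
      exact huw
    have h4 := E_mem_of_om hH h2 hw h3
    rw [E_add_left] at h4
    have h5 := H.sub_mem h4 (E_mem_of_om hH hu hw huw)
    rwa [add_sub_cancel_right] at h5
  · exact E_mem_of_om hH hv hw hvw

/-- Step 3: the set `X` is not isotropic -/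
theorem step3 (hn : Even n) (hS : finrank ℂ (SS H) + 2 ≤ n) (hH : ∀ X ∈ H, ∀ Y ∈ H, X * Y - Y * X ∈ H)
    {x0 : Fin n → ℂ} (hx0 : x0 ≠ 0) (hx0H : EE x0 ∈ H)
    (hX : ∀ x y : Fin n → ℂ, EE x ∈ H → EE y ∈ H → om x y = 0) : False := by
  obtain ⟨R, hR⟩ : ∃ R : Submodule ℂ (Fin n → ℂ), R = Submodule.span ℂ {x | EE x ∈ H} := ⟨_, rfl⟩
  refine step2 hn hS (R := R) ?_ ?_ ?_
  · intro h hh A hA hnil
    -- generators
    have hgen : ∀ x, EE x ∈ H → A x ∈ R := by
      intro x hx
      obtain ⟨x1, hx1⟩ : ∃ x1, x1 = A x := ⟨_, rfl⟩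
      obtain ⟨x2, hx2⟩ : ∃ x2, x2 = A x1 := ⟨_, rfl⟩
      have hx3 : A x2 = 0 := by rw [hx2, hx1]; exact hnil x
      have k1 : E x x1 ∈ H := by rw [hx1]; exact E_A_mem hH hA hh hx
      have k2 := acts_E_mem hH hA hh k1
      rw [← hx1, ← hx2] at k2
      -- `x1² + x x2`
      have k4 : E x1 x2 ∈ H := by
        have e1 : h * (E x1 x1 + E x x2) - (E x1 x1 + E x x2) * h ∈ H := hH _ hh _ k2
        have e2 : h * (E x1 x1 + E x x2) - (E x1 x1 + E x x2) * h = (3 : ℂ) • E x1 x2 := by
          have e3 := hA.1 x1 x1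
          have e4 := hA.1 x x2
          rw [← hx2] at e3
          rw [← hx1, hx3] at e4
          have e5 : E x 0 = 0 := by
            have := E_smul 0 x 0
            simpa using this
          rw [e5, add_zero] at e4
          calc h * (E x1 x1 + E x x2) - (E x1 x1 + E x x2) * h
              = (h * E x1 x1 - E x1 x1 * h) + (h * E x x2 - E x x2 * h) := by
                rw [mul_add, add_mul]; abel
            _ = _ := by
                rw [e3, e4, E_comm x2 x1, show (3 : ℂ) = 1 + 1 + 1 by norm_num, add_smul, add_smul, one_smul]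
        rw [e2] at e1
        exact (Submodule.smul_mem_iff _ (by norm_num)).1 e1
      have k5 : E x2 x2 ∈ H := by
        have e1 := acts_E_mem hH hA hh k4
        rw [← hx2, hx3] at e1
        have e5 : E x1 0 = 0 := by
          have := E_smul 0 x1 0
          simpa using this
        rwa [e5, add_zero] at e1
      -- `x + t x1 + t² x2 / 2`
      have k6 : ∀ t : ℂ, t * t = 1 → EE (x + (t • x1 + (1 / 2 : ℂ) • x2)) ∈ H := by
        intro t ht
        rw [EE_add, EE_add, EE_smul', EE_smul', E_add, E_smul, E_smul, E_smul, E_smul_left, ht, one_smul]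
        have m1 : EE x + (EE x1 + ((1 / 2 : ℂ) * (1 / 2)) • EE x2 + (1 / 2 : ℂ) • t • E x1 x2) +
            (t • E x x1 + (1 / 2 : ℂ) • E x x2) =
            EE x + (1 / 2 : ℂ) • (E x1 x1 + E x x2) + ((1 / 2 : ℂ) * (1 / 2)) • EE x2 +
              (1 / 2 : ℂ) • t • E x1 x2 + t • E x x1 := by
          rw [E_self x1]
          module
        rw [m1]
        exact H.add_mem (H.add_mem (H.add_mem (H.add_mem hx (H.smul_mem _ k2))
          (H.smul_mem _ ((EE_mem_iff x2).1 k5))) (H.smul_mem _ (H.smul_mem _ k4))) (H.smul_mem _ k1)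
      have k7 := k6 1 (by ring)
      have k8 := k6 (-1) (by ring)
      have k9 : x1 = (1 / 2 : ℂ) • (x + ((1 : ℂ) • x1 + (1 / 2 : ℂ) • x2)) -
          (1 / 2 : ℂ) • (x + ((-1 : ℂ) • x1 + (1 / 2 : ℂ) • x2)) := by
        module
      rw [← hx1, k9, hR]
      exact Submodule.sub_mem _ (Submodule.smul_mem _ _ (Submodule.subset_span k7))
        (Submodule.smul_mem _ _ (Submodule.subset_span k8))
    intro x hx
    rw [hR] at hx
    have h1 : Submodule.span ℂ {x | EE x ∈ H} ≤ R.comap A := by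
      rw [Submodule.span_le]
      intro y hy
      exact hgen y hy
    exact h1 hx
  · have h1 : ∀ x, EE x ∈ H → ∀ y ∈ R, om x y = 0 := by
      intro x hx y hy
      rw [hR] at hy
      have h2 : Submodule.span ℂ {x | EE x ∈ H} ≤ LinearMap.ker (B n x) := by
        rw [Submodule.span_le]
        intro z hz
        rw [SetLike.mem_coe, LinearMap.mem_ker, B_apply]
        exact hX x z hx hz
      have h3 := h2 hy
      rwa [LinearMap.mem_ker, B_apply] at h3
    intro x hx y hy
    have h2 : Submodule.span ℂ {x | EE x ∈ H} ≤ LinearMap.ker (B n y) := by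
      rw [Submodule.span_le]
      intro z hz
      rw [SetLike.mem_coe, LinearMap.mem_ker, B_apply, om_skew z y, h1 z hz y hy, neg_zero]
    rw [hR] at hx
    have h3 := h2 hx
    rw [LinearMap.mem_ker, B_apply] at h3
    rw [om_skew y x, h3, neg_zero]
  · intro h
    have h1 : x0 ∈ R := by
      rw [hR]
      exact Submodule.subset_span hx0H
    rw [h, Submodule.mem_bot] at h1
    exact hx0 h1

end

theorem main : Pool.Agent.T44.GF.S_CODIM2 := by
  intro n hn hn4 H hH hdim
  have hS := SS_dim hn4 hdim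
  obtain ⟨x0, hx0, hx0H⟩ := step1 hn hn4 hH hdim
  -- two vectors with nonzero pairing
  obtain ⟨x, y, hx, hy, hxy⟩ : ∃ x y : Fin n → ℂ, EE x ∈ H ∧ EE y ∈ H ∧ om x y ≠ 0 := by
    by_contra hcon
    push Not at hcon
    exact step3 hn hS hH hx0 hx0H hcon
  by_contra hfail
  push Not at hfail
  obtain ⟨M, hM⟩ : ∃ M : Submodule ℂ (Fin n → ℂ), M = Submodule.span ℂ {z | EE z ∈ H ∧ om x z ≠ 0} := ⟨_, rfl⟩
  have hgenM : ∀ z, EE z ∈ H → om x z ≠ 0 → z ∈ M := fun z h1 h2 => by
    rw [hM]; exact Submodule.subset_span ⟨h1, h2⟩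
  -- products
  have hMM : ∀ a ∈ M, ∀ b ∈ M, E a b ∈ H := by
    have h1 : ∀ a, EE a ∈ H → om x a ≠ 0 → ∀ b ∈ M, E a b ∈ H := by
      intro a ha hxa b hb
      have h2 : Submodule.span ℂ {z | EE z ∈ H ∧ om x z ≠ 0} ≤ LinearMap.ker (phi H a) := by
        rw [Submodule.span_le]
        rintro z ⟨hz, hxz⟩
        rw [SetLike.mem_coe, mem_ker]
        refine E_mem_of_path hH ha hx hz ?_ hxz
        rw [om_skew x a]
        exact neg_ne_zero.2 hxa
      rw [hM] at hb
      exact (mem_ker H a b).1 (h2 hb)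
    intro a ha b hb
    have h2 : Submodule.span ℂ {z | EE z ∈ H ∧ om x z ≠ 0} ≤ LinearMap.ker (phi H b) := by
      rw [Submodule.span_le]
      rintro z ⟨hz, hxz⟩
      rw [SetLike.mem_coe, mem_ker, E_comm]
      exact h1 z hz hxz b hb
    rw [hM] at ha
    rw [E_comm]
    exact (mem_ker H b a).1 (h2 ha)
  have hMX : ∀ a ∈ M, EE a ∈ H := fun a ha => (EE_mem_iff a).1 (hMM a ha a ha)
  have hyM : y ∈ M := hgenM y hy hxy
  have hxM : x ∈ M := by
    have h1 := EE_add_mem hx hy (E_mem_of_om hH hx hy hxy)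
    have h2 : x + y ∈ M := hgenM _ h1 (by rw [om_add, om_self, zero_add]; exact hxy)
    have h3 := M.sub_mem h2 hyM
    rwa [add_sub_cancel_right] at h3
  -- `X ⊆ M ∪ M^⊥`
  have hdich : ∀ z, EE z ∈ H → (∃ m ∈ M, om z m ≠ 0) → z ∈ M := by
    intro z hz ⟨m, hm, hzm⟩
    by_cases hxz : om x z = 0
    · -- a generator with nonzero pairing
      obtain ⟨g, hg, hxg, hzg⟩ : ∃ g, EE g ∈ H ∧ om x g ≠ 0 ∧ om z g ≠ 0 := by
        by_contra hcon
        push Not at hcon
        apply hzm
        have h2 : Submodule.span ℂ {z | EE z ∈ H ∧ om x z ≠ 0} ≤ LinearMap.ker (B n z) := by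
          rw [Submodule.span_le]
          rintro u ⟨hu, hxu⟩
          rw [SetLike.mem_coe, LinearMap.mem_ker, B_apply]
          exact hcon u hu hxu
        rw [hM] at hm
        have h3 := h2 hm
        rwa [LinearMap.mem_ker, B_apply] at h3
      have h1 := EE_add_mem hz hg (E_mem_of_om hH hz hg hzg)
      have h2 : z + g ∈ M := hgenM _ h1 (by rw [om_add, hxz, zero_add]; exact hxg)
      have h3 := M.sub_mem h2 (hgenM g hg hxg)
      rwa [add_sub_cancel_right] at h3
    · exact hgenM z hz hxz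
  -- stability of `M`
  have hstM' : ∀ h ∈ H, ∀ A, Acts h A → ∀ a ∈ M, (∃ m ∈ M, om a m ≠ 0) → A a ∈ M := by
    intro h hh A hA a ha ⟨m, hm, ham⟩
    obtain ⟨z, hz⟩ : ∃ z, z = A a := ⟨_, rfl⟩
    have haz : E a z ∈ H := by rw [hz]; exact E_A_mem hH hA hh (hMX a ha)
    have hmz : E m z ∈ H := by
      have h1 := acts_E_mem hH (acts_E m m) (hMM m hm m hm) haz
      rw [AA_apply, AA_apply, E_add_left, E_add, E_smul_left, E_smul] at h1
      have h2 := H.sub_mem h1 (H.smul_mem (2 * om m z) (hMM a ha m hm))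
      have h3 : (2 * om m a) • E m z ∈ H := by
        convert h2 using 1
        module
      refine (Submodule.smul_mem_iff _ (mul_ne_zero (by norm_num) ?_)).1 h3
      rw [om_skew a m]
      exact neg_ne_zero.2 ham
    have hzz : EE z ∈ H := by
      have h1 := hH _ haz _ hmz
      rw [bracket, om_self, zero_smul, add_zero] at h1
      have h2 := H.sub_mem (H.sub_mem h1 (H.smul_mem (om z m) haz)) (H.smul_mem (om a z) (by rw [E_comm]; exact hmz : E z m ∈ H))
      have h3 : om a m • E z z ∈ H := by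
        convert h2 using 1
        abel
      exact (EE_mem_iff z).1 ((Submodule.smul_mem_iff _ ham).1 h3)
    have hp := EE_add_mem (hMX a ha) hzz haz
    have hq := EE_sub_mem (hMX a ha) hzz haz
    rw [← hz]
    by_cases hc : om (a + z) m = 0
    · have hc2 : om (a - z) m ≠ 0 := by
        intro h1
        apply ham
        rw [om_add_left] at hc
        rw [om_sub_left] at h1
        linear_combination (1 / 2) * hc + (1 / 2) * h1
      have h1 := hdich _ hq ⟨m, hm, hc2⟩
      have h2 := M.sub_mem ha h1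
      rwa [sub_sub_cancel] at h2
    · have h1 := hdich _ hp ⟨m, hm, hc⟩
      have h2 := M.sub_mem h1 ha
      rwa [add_sub_cancel_left] at h2
  have hstM : ∀ h ∈ H, ∀ A, Acts h A → ∀ a ∈ M, A a ∈ M := by
    intro h hh A hA a ha
    by_cases hc : ∃ m ∈ M, om a m ≠ 0
    · exact hstM' h hh A hA a ha hc
    · push Not at hc
      have h1 : A (a + x) ∈ M := by
        refine hstM' h hh A hA _ (M.add_mem ha hxM) ⟨y, hyM, ?_⟩
        rw [om_add_left, hc y hyM, zero_add]
        exact hxy
      have h2 : A x ∈ M := hstM' h hh A hA x hxM ⟨y, hyM, hxy⟩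
      rw [map_add] at h1
      have h3 := M.sub_mem h1 h2
      rwa [add_sub_cancel_right] at h3
  -- the radical
  obtain ⟨N, hN⟩ : ∃ N : Submodule ℂ (Fin n → ℂ), ∀ z, z ∈ N ↔ ∀ m ∈ M, om m z = 0 := by
    refine ⟨(B n).orthogonal M, fun z => ?_⟩
    rw [LinearMap.BilinForm.mem_orthogonal_iff]
    rfl
  have hstN : ∀ h ∈ H, ∀ A, Acts h A → ∀ a ∈ N, A a ∈ N := by
    intro h hh A hA a ha
    rw [hN] at ha ⊢
    intro m hm
    have h1 := hA.2 m a
    rw [ha _ (hstM h hh A hA m hm), zero_add] at h1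
    exact h1
  have hR0 : M ⊓ N = ⊥ := by
    by_contra hcon
    refine step2 hn hS (R := M ⊓ N) ?_ ?_ hcon
    · intro h hh A hA _ z hz
      exact ⟨hstM h hh A hA z hz.1, hstN h hh A hA z hz.2⟩
    · intro a ha b hb
      exact (hN b).1 hb.2 a ha.1
  -- `M ≠ ⊤`
  obtain ⟨u0, hu0⟩ := hfail
  have hMtop : M ≠ ⊤ := fun h => hu0 (hMX u0 (by rw [h]; exact Submodule.mem_top))
  -- a nonzero vector of `N`
  have hdecomp : ∀ z, ∃ m ∈ M, z - m ∈ N := by
    intro z
    -- the functional `om · z` on `M` is `om · m`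
    have hinj : Function.Injective (((B n).domRestrict₁₂ M M)) := by
      rw [← LinearMap.ker_eq_bot, LinearMap.ker_eq_bot']
      intro m hm
      have h1 : (m : Fin n → ℂ) ∈ M ⊓ N := by
        refine ⟨m.2, (hN _).2 fun m' hm' => ?_⟩
        have h2 := congrArg (fun f => f ⟨m', hm'⟩) hm
        simp only [LinearMap.domRestrict₁₂_apply, B_apply, LinearMap.zero_apply] at h2
        rw [om_skew _ m', neg_eq_zero]
        exact h2
      rw [hR0, Submodule.mem_bot] at h1
      exact Subtype.ext h1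
    have hsurj : Function.Surjective (((B n).domRestrict₁₂ M M)) :=
      (LinearMap.injective_iff_surjective_of_finrank_eq_finrank (by
        rw [Module.finrank_linearMap, finrank_self, mul_one])).1 hinj
    obtain ⟨m, hm⟩ := hsurj ((B n z).domRestrict M)
    refine ⟨m, m.2, (hN _).2 fun m' hm' => ?_⟩
    have h2 := congrArg (fun f => f ⟨m', hm'⟩) hm
    simp only [LinearMap.domRestrict₁₂_apply, B_apply, LinearMap.domRestrict_apply] at h2
    rw [om_skew (z - (m : Fin n → ℂ)) m', om_sub_left, h2]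
    ring
  obtain ⟨v2, hv2N, hv20⟩ : ∃ v2 ∈ N, v2 ≠ 0 := by
    by_contra hcon
    push Not at hcon
    apply hMtop
    rw [eq_top_iff]
    intro z _
    obtain ⟨m, hm, hzm⟩ := hdecomp z
    have h1 := hcon _ hzm
    rw [sub_eq_zero] at h1
    rw [h1]
    exact hm
  -- the vector `v = x + v2`
  have hW : ∀ w, E (x + v2) w ∈ H → ∃ α : ℂ, w = α • (v2 - x) := by
    intro w hw
    obtain ⟨w1, hw1, hw2⟩ := hdecomp w
    obtain ⟨w2, hw2'⟩ : ∃ w2, w2 = w - w1 := ⟨_, rfl⟩
    rw [← hw2'] at hw2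
    have hww : w = w1 + w2 := by rw [hw2']; abel
    have hact : ∀ m ∈ M, om w1 m • v2 + om x m • w2 = 0 := by
      intro m hm
      have h1 := hstM _ hw _ (acts_E (x + v2) w) m hm
      have e1 : om v2 m = 0 := by rw [om_skew m v2, (hN v2).1 hv2N m hm, neg_zero]
      have e2 : om w2 m = 0 := by rw [om_skew m w2, (hN w2).1 hw2 m hm, neg_zero]
      rw [AA_apply, hww, om_add_left, om_add_left, e1, e2, add_zero, add_zero] at h1
      have h2 : om w1 m • v2 + om x m • w2 ∈ M ⊓ N := by
        constructor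
        · have h3 := M.sub_mem (M.sub_mem h1 (M.smul_mem (om w1 m) hxM)) (M.smul_mem (om x m) hw1)
          have h4 : om w1 m • v2 + om x m • w2 =
              om w1 m • (x + v2) + om x m • (w1 + w2) - om w1 m • x - om x m • w1 := by module
          rw [h4]
          exact h3
        · exact N.add_mem (N.smul_mem _ hv2N) (N.smul_mem _ hw2)
      rwa [hR0, Submodule.mem_bot] at h2
    have h1 := hact y hyM
    obtain ⟨α, hα⟩ : ∃ α, α = -(om w1 y / om x y) := ⟨_, rfl⟩
    have h2 : w2 = α • v2 := by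
      have h3 : om x y • w2 = -(om w1 y • v2) := by
        rw [eq_neg_iff_add_eq_zero, add_comm]; exact h1
      calc w2 = (om x y)⁻¹ • (om x y • w2) := by rw [smul_smul, inv_mul_cancel₀ hxy, one_smul]
        _ = _ := by rw [h3, hα, smul_neg, smul_smul, neg_smul]; congr 2; field_simp
    have h3 : ∀ m ∈ M, om (w1 + α • x) m = 0 := by
      intro m hm
      have h4 := hact m hm
      rw [h2, smul_smul, ← add_smul] at h4
      have h5 := (smul_eq_zero.1 h4).resolve_right hv20
      rw [om_add_left, om_smul_left]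
      linear_combination h5
    have h4 : w1 + α • x = 0 := by
      have h5 : w1 + α • x ∈ M ⊓ N := by
        refine ⟨M.add_mem hw1 (M.smul_mem _ hxM), (hN _).2 fun m hm => ?_⟩
        rw [om_skew (w1 + α • x) m, h3 m hm, neg_zero]
      rwa [hR0, Submodule.mem_bot] at h5
    refine ⟨α, ?_⟩
    have h5 : w1 = -(α • x) := eq_neg_of_add_eq_zero_left h4
    rw [hww, h5, h2, smul_sub]
    abel
  -- contradiction
  have hr : LinearMap.range (phi H (x + v2)) ≤ SS H := by
    rintro _ ⟨w, rfl⟩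
    exact phi_mem_SS H (x + v2) w
  have hr2 := Submodule.finrank_mono hr
  have hrn := LinearMap.finrank_range_add_finrank_ker (phi H (x + v2))
  rw [finrank_fin_fun] at hrn
  have hk : LinearMap.ker (phi H (x + v2)) ≤ Submodule.span ℂ {v2 - x} := by
    intro w hw
    obtain ⟨α, hα⟩ := hW w ((mem_ker H _ w).1 hw)
    rw [Submodule.mem_span_singleton]
    exact ⟨α, hα.symm⟩
  have hk2 := Submodule.finrank_mono hk
  have hk3 : finrank ℂ (Submodule.span ℂ {v2 - x}) ≤ 1 := by
    have h1 := finrank_span_le_card (R := ℂ) ({v2 - x} : Set (Fin n → ℂ))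
    simpa using h1
  omega

end Pool.Agent.H91GF
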